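import Mathlib
import Pool.Agent.H50.Fib1

namespace Pool.Agent.Results.MP_75e24b_ag.Counter

open MvPolynomial Pool.Agent.H50.Fib

section
variable {K : Type} [Field K] {n m : ℕ} (f : Fin m → MvPolynomial (Fin n) K)

/-- `φ : T = R[y] → R[t]`, `y_j ↦ f_j t`. -/
noncomputable def phi : MvPolynomial (Fin m) (MvPolynomial (Fin n) K) →ₐ[MvPolynomial (Fin n) K]
    Polynomial (MvPolynomial (Fin n) K) :=
  aeval fun j => Polynomial.C (f j) * Polynomial.X

/-- The defining ideal `J` of the Rees algebra. -/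
noncomputable def J : Ideal (MvPolynomial (Fin m) (MvPolynomial (Fin n) K)) := RingHom.ker (phi f)

/-- The ideal `L` generated by the linear relations. -/
noncomputable def L : Ideal (MvPolynomial (Fin m) (MvPolynomial (Fin n) K)) :=
  Ideal.span {g | ∃ a : Fin m → MvPolynomial (Fin n) K, ∑ i, a i * f i = 0 ∧ g = ∑ i, C (a i) * X i}

/-- `φ' : K[y] → R[t]`, `y_j ↦ f_j t`. -/
noncomputable def phi' : MvPolynomial (Fin m) K →ₐ[K] Polynomial (MvPolynomial (Fin n) K) :=
  aeval fun j => Polynomial.C (f j) * Polynomial.X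

/-- The defining ideal `H` of the fiber ring. -/
noncomputable def H : Ideal (MvPolynomial (Fin m) K) := RingHom.ker (phi' f)

/-- Fiber type: `J = L + H T`. -/
def FiberType : Prop :=
  J f = L f ⊔ (H f).map (MvPolynomial.map (C : K →+* MvPolynomial (Fin n) K))

/-- The conductor `C(I) = {r ∈ R | r J ⊆ L}`. -/
noncomputable def conductor : Ideal (MvPolynomial (Fin n) K) :=
  (Submodule.colon (L f) (J f : Set (MvPolynomial (Fin m) (MvPolynomial (Fin n) K)))).comap
    (C : MvPolynomial (Fin n) K →+* MvPolynomial (Fin m) (MvPolynomial (Fin n) K))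

/-- An ideal generated by squarefree monomials. -/
def SqfreeIdeal (I : Ideal (MvPolynomial (Fin n) K)) : Prop :=
  ∃ S : Set (Fin n →₀ ℕ), (∀ s ∈ S, ∀ i, s i ≤ 1) ∧
    I = Ideal.span ((fun s => monomial s (1 : K)) '' S)
end

section
variable (K : Type) [Field K]

abbrev R := MvPolynomial (Fin 6) K
abbrev T := MvPolynomial (Fin 6) (R K)

noncomputable def F : Fin 6 → R K :=
  ![X 0 * X 1, X 2 * X 3 * X 4, X 0 * X 2, X 1 * X 3 * X 4, X 2 * X 3 * X 5, X 1 * X 4 * X 5]

noncomputable def hh : T K := X 0 * X 1 - X 2 * X 3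

noncomputable def G : Fin 12 → T K :=
  ![C (X 0), C (X 1), C (X 2), C (X 3), C (X 4), C (X 5), X 0, X 1, X 2, X 3, X 4, X 5]

lemma syz (i j : Fin 6) (p q : R K) (h : p * F K i = q * F K j) :
    C p * X i - C q * X j ∈ L (F K) := by
  refine Ideal.subset_span ⟨Pi.single i p - Pi.single j q, ?_, ?_⟩
  · simp [sub_mul, Finset.sum_sub_distrib, Pi.single_apply, ite_mul, h]
  · simp [sub_mul, Finset.sum_sub_distrib, Pi.single_apply, apply_ite C, ite_mul]

lemma rel {Q : Type} [CommRing Q] (π : T K →+* Q)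
    (hs : ∀ (i j : Fin 6) (p q : R K), p * F K i = q * F K j → π (C p * X i) = π (C q * X j))
    (h : π (X 0 * X 1) = π (X 2 * X 3)) : Rel fun i => π (G K i) := by
  have h1 := hs 0 2 (X 2) (X 1) (by simp [F]; ring)
  have h2 := hs 3 0 (X 0) (X 3 * X 4) (by simp [F]; ring)
  have h3 := hs 5 0 (X 0) (X 4 * X 5) (by simp [F]; ring)
  have h4 := hs 1 2 (X 0) (X 3 * X 4) (by simp [F]; ring)
  have h5 := hs 3 1 (X 2) (X 1) (by simp [F]; ring)
  have h6 := hs 4 1 (X 4) (X 5) (by simp [F]; ring)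
  have h7 := hs 4 2 (X 0) (X 3 * X 5) (by simp [F]; ring)
  have h8 := hs 5 3 (X 3) (X 5) (by simp [F]; ring)
  simp only [map_mul] at h h1 h2 h3 h4 h5 h6 h7 h8
  exact ⟨h1, h2, h3, h4, h5, h6, h7, h8, h.symm⟩

lemma main {Q : Type} [CommRing Q] [Algebra K Q] (π : T K →ₐ[K] Q)
    (hs : ∀ (i j : Fin 6) (p q : R K), p * F K i = q * F K j → π (C p * X i) = π (C q * X j))
    (h : π (X 0 * X 1) = π (X 2 * X 3)) (p : T K) (hp : p ∈ J (F K)) : π p = 0 := by
  let g : Fin 12 → Q := fun i => π (G K i)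
  have hg : Rel g := rel K π.toRingHom hs h
  classical
  let s : (Fin 6 →₀ ℕ) → ℕ → Q := fun c k =>
    if h : ∃ u, img u = (⇑c, k) then Mo g h.choose else 0
  let σ : Polynomial (R K) →ₗ[K] Q :=
    Polynomial.lsum fun k => (basisMonomials (Fin 6) K).constr K fun c => s c k
  have key : ∀ p : T K, σ (phi (F K) p) = π p := by
    intro p
    induction p using MvPolynomial.induction_on' with
    | add p q hp hq => simp [hp, hq]
    | monomial α r =>
      induction r using MvPolynomial.induction_on' with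
      | add p q hp hq => simp [hp, hq]
      | monomial β κ =>
        let u : V := ![β 0, β 1, β 2, β 3, β 4, β 5, α 0, α 1, α 2, α 3, α 4, α 5]
        let c : Fin 6 →₀ ℕ := Finsupp.equivFunOnFinite.symm (img u).1
        have e1 : (monomial α (monomial β κ) : T K) = κ • Mo (G K) u := by
          rw [monomial_eq, monomial_eq, Finsupp.prod_fintype _ _ (by simp),
            Finsupp.prod_fintype _ _ (by simp), Algebra.smul_def]
          simp [Mo, G, u, Fin.prod_univ_succ, MvPolynomial.algebraMap_apply, mul_assoc]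
        have e2 : phi (F K) (Mo (G K) u) = Polynomial.monomial (img u).2 (monomial c 1) := by
          rw [← Polynomial.C_mul_X_pow_eq_monomial, monomial_eq, Finsupp.prod_fintype _ _ (by simp)]
          simp [phi, Mo, G, F, u, c, img, Fin.prod_univ_succ, mul_pow, pow_add]
          ring
        have e3 : ∃ v, img v = (⇑c, (img u).2) := ⟨u, rfl⟩
        have e4 : phi (F K) (κ • Mo (G K) u) = κ • phi (F K) (Mo (G K) u) :=
          ((phi (F K)).restrictScalars K).toLinearMap.map_smul κ _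
        have e5 : π (κ • Mo (G K) u) = κ • Mo g u := by
          rw [map_smul]
          simp [Mo, g]
        rw [e1, e4, e5, map_smul, e2]
        congr 1
        have e6 : σ (Polynomial.monomial (img u).2 (monomial c 1)) = s c (img u).2 := by
          simp only [σ, Polynomial.lsum_apply]
          rw [Polynomial.sum_monomial_index _ _ (by simp)]
          exact (basisMonomials (Fin 6) K).constr_basis K _ c
        rw [e6]
        simp only [s, dif_pos e3]
        exact conn g hg e3.choose_spec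
  rw [← key, show phi (F K) p = 0 from hp, map_zero]

lemma gen {A : Type} [CommRing A] [Algebra K A] (B : Ideal A) :
    ∃ (Q : Type) (_ : CommRing Q) (_ : Algebra K Q) (π : A →ₐ[K] Q),
      ∀ p q, π p = π q ↔ p - q ∈ B :=
  ⟨A ⧸ B, inferInstance, inferInstance, Ideal.Quotient.mkₐ K B, fun _ _ => Ideal.Quotient.eq⟩

lemma JleB : J (F K) ≤ L (F K) ⊔ Ideal.span {hh K} := by
  intro p hp
  obtain ⟨Q, _, _, π, h⟩ := gen K (L (F K) ⊔ Ideal.span {hh K})
  have := main K π (fun i j p q e => (h _ _).2 (Ideal.mem_sup_left (syz K i j p q e)))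
    ((h _ _).2 (Ideal.mem_sup_right (Ideal.mem_span_singleton_self _))) p hp
  simpa using (h p 0).1 (by rw [this, map_zero])

lemma fiber : FiberType (F K) := by
  refine le_antisymm ((JleB K).trans (sup_le_sup_left ?_ _)) (sup_le ?_ ?_)
  · rw [Ideal.span_singleton_le_iff_mem]
    have : hh K = MvPolynomial.map (C : K →+* R K) (X 0 * X 1 - X 2 * X 3) := by simp [hh]
    rw [this]
    refine Ideal.mem_map_of_mem _ ?_
    simp [H, RingHom.mem_ker, phi', F]
    ring
  · refine Ideal.span_le.2 ?_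
    rintro _ ⟨a, ha, rfl⟩
    have := congrArg (fun r => Polynomial.C r * Polynomial.X) ha
    simpa [J, RingHom.mem_ker, phi, Finset.sum_mul, mul_assoc] using this
  · rw [Ideal.map_le_iff_le_comap]
    intro p hp
    have : ∀ p, phi (F K) (MvPolynomial.map C p) = phi' (F K) p := fun p => by
      induction p using MvPolynomial.induction_on' with
      | monomial α r => simp [phi, phi', aeval_monomial]
      | add p q hp hq => simp [hp, hq]
    exact (this p).trans hp

lemma sq_mem : X 5 * X 5 ∈ conductor (F K) := by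
  refine Submodule.mem_colon.2 fun p hp => ?_
  obtain ⟨a, ha, b, hb, rfl⟩ := Submodule.mem_sup.1 (JleB K hp)
  obtain ⟨w, rfl⟩ := Ideal.mem_span_singleton'.1 hb
  have h1 := syz K 4 1 (X 4) (X 5) (by simp [F]; ring)
  have h2 := syz K 5 3 (X 3) (X 5) (by simp [F]; ring)
  have h3 := syz K 5 0 (X 0) (X 4 * X 5) (by simp [F]; ring)
  have h4 := syz K 4 2 (X 0) (X 3 * X 5) (by simp [F]; ring)
  have : (C (X 5 * X 5) : T K) • (a + w * hh K) = C (X 5 * X 5) * a +
      w * (-(C (X 5) * X 0) * (C (X 4) * X 4 - C (X 5) * X 1) +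
        C (X 5) * X 2 * (C (X 3) * X 5 - C (X 5) * X 3) -
        X 4 * (C (X 0) * X 5 - C (X 4 * X 5) * X 0) +
        X 5 * (C (X 0) * X 4 - C (X 3 * X 5) * X 2)) := by
    simp only [hh, map_mul, smul_eq_mul]; ring
  rw [this]
  exact add_mem (Ideal.mul_mem_left _ _ ha) (Ideal.mul_mem_left _ _ (add_mem (sub_mem (add_mem
    (Ideal.mul_mem_left _ _ h1) (Ideal.mul_mem_left _ _ h2)) (Ideal.mul_mem_left _ _ h3))
    (Ideal.mul_mem_left _ _ h4)))

lemma not_mem : X 5 ∉ conductor (F K) := by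
  intro h
  have hJ : hh K ∈ J (F K) := by
    simp [J, RingHom.mem_ker, phi, F, hh]
    ring
  have h1 : C (X 5) * hh K ∈ L (F K) := Submodule.mem_colon.1 h _ hJ
  let ε : Polynomial K := Polynomial.X
  let ψ0 : R K →ₐ[K] Polynomial K := aeval ![0, 0, 0, 0, ε * ε, ε]
  let ψ : T K →+* Polynomial K := eval₂Hom ψ0.toRingHom ![1, ε, 0, 0, 1, 0]
  have h2 : L (F K) ≤ (Ideal.span {ε ^ 3}).comap ψ := by
    refine Ideal.span_le.2 ?_
    rintro _ ⟨a, ha, rfl⟩
    let t : Polynomial (Polynomial K) := Polynomial.X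
    let ρ1 : R K →ₐ[K] Polynomial (Polynomial K) :=
      aeval ![t, t, 0, 0, Polynomial.C ε * Polynomial.C ε, Polynomial.C ε]
    let ρ2 : R K →ₐ[K] Polynomial (Polynomial K) :=
      aeval ![0, 0, t, t, Polynomial.C ε * Polynomial.C ε, Polynomial.C ε]
    have c1 : ∀ p, (ρ1 p).coeff 0 = ψ0 p := fun p => by
      induction p using MvPolynomial.induction_on with
      | C a => simp
      | add p q hp hq => simp [hp, hq]
      | mul_X p i hp => fin_cases i <;> simp [ρ1, ψ0, t, ← hp]
    have c2 : ∀ p, (ρ2 p).coeff 0 = ψ0 p := fun p => by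
      induction p using MvPolynomial.induction_on with
      | C a => simp
      | add p q hp hq => simp [hp, hq]
      | mul_X p i hp => fin_cases i <;> simp [ρ2, ψ0, t, ← hp]
    have d1 : ρ1 (a 0) * t ^ 2 + Polynomial.C (ε ^ 3) * (ρ1 (a 5) * t ^ 1) = 0 := by
      have := congrArg ρ1 ha
      simp [Fin.sum_univ_succ, F, ρ1] at this
      simp only [map_pow, ρ1]
      linear_combination this
    have d2 : Polynomial.C (ε ^ 2) * (ρ2 (a 1) * t ^ 2) + Polynomial.C ε * (ρ2 (a 4) * t ^ 2) = 0 := by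
      have := congrArg ρ2 ha
      simp [Fin.sum_univ_succ, F, ρ2] at this
      simp only [map_pow, ρ2]
      linear_combination this
    have f1 := congrArg (Polynomial.coeff · (0 + 2)) d1
    have f2 := congrArg (Polynomial.coeff · (0 + 2)) d2
    simp only [t, Polynomial.coeff_add, Polynomial.coeff_C_mul, Polynomial.coeff_mul_X_pow, c1, c2,
      Polynomial.coeff_zero] at f1 f2
    have f3 : ε * ψ0 (a 1) + ψ0 (a 4) = 0 :=
      mul_left_cancel₀ (Polynomial.X_ne_zero (R := K)) (by linear_combination f2)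
    refine Ideal.mem_span_singleton'.2 ⟨-(ρ1 (a 5) * Polynomial.X ^ 1).coeff (0 + 2), ?_⟩
    simp [ψ, Fin.sum_univ_succ]
    linear_combination -f1 - f3
  have h3 : ε ^ 3 ∣ ε ^ 2 := by
    have := Ideal.mem_span_singleton.1 (h2 h1)
    simpa [ψ, ψ0, hh, sq] using this
  have := Polynomial.X_pow_dvd_iff.1 h3 2 (by norm_num)
  simp [ε] at this
end

theorem result (K : Type) [Field K] :
    ∃ (n m : ℕ) (f : Fin m → MvPolynomial (Fin n) K),
      (∀ j, ∃ s : Fin n →₀ ℕ, (∀ i, s i ≤ 1) ∧ f j = monomial s 1) ∧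
      (∀ i j, f i ∣ f j → i = j) ∧ FiberType f ∧ ¬ SqfreeIdeal (conductor f) := by
  let E : Fin 6 → Fin 6 → ℕ := ![![1, 1, 0, 0, 0, 0], ![0, 0, 1, 1, 1, 0], ![1, 0, 1, 0, 0, 0],
    ![0, 1, 0, 1, 1, 0], ![0, 0, 1, 1, 0, 1], ![0, 1, 0, 0, 1, 1]]
  have hE : ∀ j, F K j = monomial (Finsupp.equivFunOnFinite.symm (E j)) 1 := fun j => by
    rw [monomial_eq, Finsupp.prod_fintype _ _ (by simp)]
    fin_cases j <;> simp [F, E, Fin.prod_univ_succ, mul_assoc]
  refine ⟨6, 6, F K, fun j => ⟨_, ?_, hE j⟩, fun i j h => ?_, fiber K, ?_⟩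
  · exact (by decide : ∀ j i, E j i ≤ 1) j
  · rw [hE, hE, monomial_dvd_monomial] at h
    exact (by decide : ∀ i j, (∀ k, E i k ≤ E j k) → i = j) i j (h.1.resolve_left one_ne_zero)
  · rintro ⟨S, hS, h⟩
    have h1 := sq_mem K
    refine not_mem K ?_
    rw [h, mem_ideal_span_monomial_image] at *
    obtain ⟨s, hs, h2⟩ := h1 (Finsupp.single 5 2) (by
      rw [← sq, X_pow_eq_monomial, mem_support_iff]; simp)
    intro d hd
    rw [support_X, Finset.mem_singleton] at hd
    refine ⟨s, hs, hd ▸ fun i => ?_⟩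
    have h3 := h2 i
    have h4 := hS s hs i
    simp only [Finsupp.single_apply] at h3 ⊢
    split_ifs at h3 ⊢ <;> omega

end Pool.Agent.Results.MP_75e24b_ag.Counter
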